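import Mathlib

/-!
# Shifts of finite type whose minimum step is exponential in the size of a deterministic presentation

The shift `X k` over an alphabet with `k + 4` symbols consists of the sequences in which a block of
symbols `pre` is followed by a marker `lm`, a block of letters from `{0, …, k - 1}`, a marker `rm` and
a block of symbols `post`, where the word of letters between the two markers has to contain a visible
error with respect to the increments of a binary counter with `k` bits (the ruler sequence).
An error is visible to one of `k` small automata, hence a deterministic presentation with `5 k + 1`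
vertices, but the longest word of letters without an error has length `2 ^ k - 1`.
-/

set_option autoImplicit false

namespace Pool.Agent.Results.MP_bb9d96_lc.ExpStep

/-! ## Shift spaces, steps and presentations -/

/-- The finite word `w` occurs in the bi-infinite sequence `x`. -/
def Occurs {A : Type} (w : List A) (x : ℤ → A) : Prop :=
  ∃ i : ℤ, ∀ (j : ℕ) (h : j < w.length), x (i + j) = w[j]

/-- The set of the bi-infinite sequences in which no word of `F` occurs. -/
def avoid {A : Type} (F : Set (List A)) : Set (ℤ → A) :=
  {x | ∀ w ∈ F, ¬ Occurs w x}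

/-- `X` is `M`-step: it is given by a set of forbidden words all of which have length `M + 1`. -/
def IsStep {A : Type} (M : ℕ) (X : Set (ℤ → A)) : Prop :=
  ∃ F : Set (List A), (∀ w ∈ F, w.length = M + 1) ∧ X = avoid F

/-- `X` is a shift of finite type. -/
def IsSFT {A : Type} (X : Set (ℤ → A)) : Prop := ∃ M, IsStep M X

/-- The minimum step of `X`. -/
noncomputable def minStep {A : Type} (X : Set (ℤ → A)) : ℕ := sInf {M | IsStep M X}

/-- A finite directed graph (multiple edges allowed) whose edges are labelled by `A`. -/
structure Presentation (A : Type) where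
  /-- the vertices -/
  V : Type
  /-- the edges -/
  E : Type
  finV : Finite V
  finE : Finite E
  /-- the source of an edge -/
  src : E → V
  /-- the target of an edge -/
  tgt : E → V
  /-- the label of an edge -/
  lab : E → A

/-- At every vertex and for every symbol there is at most one outgoing edge with this label. -/
def Presentation.Deterministic {A : Type} (G : Presentation A) : Prop :=
  ∀ e e' : G.E, G.src e = G.src e' → G.lab e = G.lab e' → e = e'

/-- The label sequences of the bi-infinite walks in `G`. -/
def Presentation.shift {A : Type} (G : Presentation A) : Set (ℤ → A) :=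
  {x | ∃ e : ℤ → G.E, (∀ i, G.tgt (e i) = G.src (e (i + 1))) ∧ ∀ i, x i = G.lab (e i)}

/-- The numbers of vertices of the deterministic presentations of `X`. -/
def detSizes {A : Type} (X : Set (ℤ → A)) : Set ℕ :=
  {n | ∃ G : Presentation A, G.Deterministic ∧ G.shift = X ∧ Nat.card G.V = n}

/-- The least number of vertices of a deterministic presentation of `X`. -/
noncomputable def sd {A : Type} (X : Set (ℤ → A)) : ℕ := sInf (detSizes X)

/-! ## Generalities -/

theorem isStep_avoid {A : Type} {F : Set (List A)} {M : ℕ} (h : ∀ w ∈ F, w.length ≤ M + 1) :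
    IsStep M (avoid F) := by
  refine ⟨{u | u.length = M + 1 ∧ ∃ w ∈ F, w <+: u}, fun w hw => hw.1, ?_⟩
  ext x
  constructor
  · rintro hx u ⟨hu, w, hw, v, rfl⟩ ⟨i, hi⟩
    refine hx w hw ⟨i, fun j hj => ?_⟩
    rw [hi j (by simp; omega), List.getElem_append_left hj]
  · rintro hx w hw ⟨i, hi⟩
    have hl := h w hw
    refine hx (w ++ List.ofFn (fun j : Fin (M + 1 - w.length) => x (i + w.length + j)))
      ⟨by simp; omega, w, hw, _, rfl⟩ ⟨i, fun j hj => ?_⟩
    by_cases hjw : j < w.length
    · rw [hi j hjw, List.getElem_append_left hjw]
    · rw [List.getElem_append_right (by omega)]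
      simp only [List.getElem_ofFn]
      congr 1
      push Not at hjw
      push_cast [Nat.cast_sub hjw]
      ring

/-! ## The alphabet and the error automata -/

/-- The alphabet. -/
inductive Sym (k : ℕ) : Type
  | pre : Sym k
  | lm : Sym k
  | letter : Fin k → Sym k
  | rm : Sym k
  | post : Sym k
  deriving DecidableEq

instance (k : ℕ) : Finite (Sym k) := by
  refine Finite.of_injective (β := Option (Option (Option (Option (Fin k)))))
    (fun s => match s with
      | .pre => none
      | .lm => some none
      | .rm => some (some none)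
      | .post => some (some (some none))
      | .letter a => some (some (some (some a)))) ?_
  intro a b h
  cases a <;> cases b <;> simp_all

/-- The states of the error automaton of a bit: nothing relevant seen so far, the last relevant letter
was the bit itself, the last relevant letter was larger, an error has been seen. -/
inductive St : Type
  | none : St
  | eq : St
  | gt : St
  | err : St
  deriving DecidableEq

/-- The error automaton of the bit `j`. -/
def δ {k : ℕ} (j : Fin k) (s : St) (a : Fin k) : St :=
  if a < j then s
  else if a = j then (match s with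
    | .none => .eq
    | .eq => .err
    | .gt => .eq
    | .err => .err)
  else (match s with
    | .none => .gt
    | .eq => .gt
    | .gt => .err
    | .err => .err)

/-- The state of the error automaton of the bit `j` after reading `w` from the state `s`. -/
def run {k : ℕ} (j : Fin k) (s : St) (w : List (Fin k)) : St := w.foldl (δ j) s

/-- No error automaton sees an error in `w`. -/
def Good {k : ℕ} (w : List (Fin k)) : Prop := ∀ j, run j .none w ≠ .err

theorem δ_err {k : ℕ} (j a : Fin k) : δ j .err a = .err := by
  unfold δ; split_ifs <;> rfl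

theorem run_err {k : ℕ} (j : Fin k) (w : List (Fin k)) : run j .err w = .err := by
  induction w with
  | nil => rfl
  | cons a w ih => simpa [run, δ_err] using ih

theorem run_append {k : ℕ} (j : Fin k) (s : St) (u v : List (Fin k)) :
    run j s (u ++ v) = run j (run j s u) v := by
  simp [run, List.foldl_append]

theorem run_cons {k : ℕ} (j : Fin k) (s : St) (a : Fin k) (v : List (Fin k)) :
    run j s (a :: v) = run j (δ j s a) v := rfl

theorem run_weak {k : ℕ} (j : Fin k) (s : St) (v : List (Fin k)) :
    (run j .none v = .none ∨ run j s v = run j .none v) ∨ run j s v = .err := by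
  induction v using List.reverseRecOn with
  | nil => simp [run]
  | append_singleton v a ih =>
    rw [run_append, run_append]
    generalize run j .none v = p at ih ⊢
    generalize run j s v = q at ih ⊢
    simp only [run, List.foldl_cons, List.foldl_nil]
    unfold δ
    rcases ih with (rfl | rfl) | rfl
    · split_ifs
      · simp
      · cases q <;> simp
      · cases q <;> simp
    · simp
    · split_ifs <;> simp

theorem Good.left {k : ℕ} {u v : List (Fin k)} (h : Good (u ++ v)) : Good u := by
  intro j hj
  apply h j
  rw [run_append, hj, run_err]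

theorem Good.right {k : ℕ} {u v : List (Fin k)} (h : Good (u ++ v)) : Good v := by
  intro j hj
  apply h j
  rw [run_append]
  rcases run_weak j (run j .none u) v with (h1 | h1) | h1
  · rw [hj] at h1; cases h1
  · rw [h1, hj]
  · exact h1

theorem run_of_lt {k : ℕ} (j : Fin k) (s : St) {w : List (Fin k)} (h : ∀ a ∈ w, a < j) :
    run j s w = s := by
  induction w with
  | nil => rfl
  | cons a w ih =>
    rw [run_cons]
    have h1 : δ j s a = s := by unfold δ; rw [if_pos (h a (by simp))]
    rw [h1]
    exact ih fun b hb => h b (by simp [hb])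

theorem δ_self {k : ℕ} (j : Fin k) (s : St) :
    δ j s j = (match s with
    | .none => .eq
    | .eq => .err
    | .gt => .eq
    | .err => .err) := by
  unfold δ; rw [if_neg (lt_irrefl _), if_pos rfl]

theorem δ_gt {k : ℕ} (j : Fin k) (s : St) {a : Fin k} (h : j < a) :
    δ j s a = (match s with
    | .none => .gt
    | .eq => .gt
    | .gt => .err
    | .err => .err) := by
  unfold δ; rw [if_neg (not_lt.2 h.le), if_neg h.ne']

/-- Words without a visible error are short. -/
theorem good_length_aux {k : ℕ} (m : ℕ) (hm : m ≤ k) {w : List (Fin k)} (hw : Good w)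
    (h : ∀ a ∈ w, (a : ℕ) < m) : w.length + 1 ≤ 2 ^ m := by
  induction m generalizing w with
  | zero =>
    cases w with
    | nil => simp
    | cons a w => exact absurd (h a (by simp)) (by omega)
  | succ m ih =>
    have hmk : m < k := hm
    let j : Fin k := ⟨m, hmk⟩
    by_cases hj : j ∈ w
    · obtain ⟨u, v, rfl, hu⟩ := List.eq_append_cons_of_mem hj
      have hu' : ∀ a ∈ u, (a : ℕ) < m := by
        intro a ha
        have h1 := h a (by simp [ha])
        have h2 : a ≠ j := by rintro rfl; exact hu ha
        have h3 : (a : ℕ) ≠ m := fun h4 => h2 (Fin.ext h4)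
        omega
      have hv' : ∀ a ∈ v, (a : ℕ) < m := by
        intro a ha
        have h1 := h a (by simp [ha])
        by_contra h2
        have h3 : a = j := Fin.ext (by simp [j]; omega)
        subst h3
        obtain ⟨v1, v2, rfl, hv1⟩ := List.eq_append_cons_of_mem ha
        apply hw j
        have e1 : run j .none u = .none := run_of_lt j _ fun b hb => hu' b hb
        have e2 : run j .eq v1 = .eq := by
          refine run_of_lt j _ fun b hb => ?_
          have h1 := h b (by simp [hb])
          have h2 : b ≠ j := by rintro rfl; exact hv1 hb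
          have h3 : (b : ℕ) ≠ m := fun h4 => h2 (Fin.ext h4)
          exact Fin.lt_def.2 (by simp [j]; omega)
        rw [run_append, e1, run_cons, δ_self, run_append, e2, run_cons, δ_self]
        exact run_err _ _
      have h1 := ih (by omega) hw.left hu'
      have h2 : Good v := (show Good ((u ++ [j]) ++ v) by simpa using hw).right
      have h3 := ih (by omega) h2 hv'
      simp only [List.length_append, List.length_cons]
      rw [pow_succ]
      omega
    · have := ih (by omega) hw (fun a ha => by
        have h1 := h a ha
        have h2 : a ≠ j := by rintro rfl; exact hj ha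
        have h3 : (a : ℕ) ≠ m := fun h4 => h2 (Fin.ext h4)
        omega)
      rw [pow_succ]
      omega

theorem good_length {k : ℕ} {w : List (Fin k)} (hw : Good w) : w.length + 1 ≤ 2 ^ k :=
  good_length_aux k le_rfl hw fun a _ => a.2

/-- The ruler word with the letters `0, …, m - 1`. -/
def ruler (k : ℕ) : (m : ℕ) → m ≤ k → List (Fin k)
  | 0, _ => []
  | m + 1, h => ruler k m (by omega) ++ ⟨m, h⟩ :: ruler k m (by omega)

theorem ruler_length (k m : ℕ) (h : m ≤ k) : (ruler k m h).length + 1 = 2 ^ m := by
  induction m with
  | zero => rfl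
  | succ m ih =>
    have := ih (by omega)
    simp only [ruler, List.length_append, List.length_cons]
    rw [pow_succ]
    omega

theorem ruler_lt (k m : ℕ) (h : m ≤ k) : ∀ a ∈ ruler k m h, (a : ℕ) < m := by
  induction m with
  | zero => simp [ruler]
  | succ m ih =>
    intro a ha
    simp only [ruler, List.mem_append, List.mem_cons] at ha
    rcases ha with ha | rfl | ha
    · exact (ih _ a ha).trans (Nat.lt_succ_self m)
    · exact Nat.lt_succ_self m
    · exact (ih _ a ha).trans (Nat.lt_succ_self m)

theorem run_ruler (k m : ℕ) (h : m ≤ k) (j : Fin k) (hj : (j : ℕ) < m) :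
    run j .none (ruler k m h) = .eq ∧ run j .gt (ruler k m h) = .eq := by
  induction m with
  | zero => omega
  | succ m ih =>
    simp only [ruler, run_append, run_cons]
    rcases Nat.lt_succ_iff_lt_or_eq.1 hj with h1 | h1
    · obtain ⟨h2, h3⟩ := ih (by omega) h1
      rw [h2, h3, δ_gt j _ (show j < ⟨m, h⟩ from h1)]
      exact ⟨h3, h3⟩
    · have h2 : ∀ s, run j s (ruler k m (by omega)) = s := fun s =>
        run_of_lt j s fun a ha => by
          have := ruler_lt k m (by omega) a ha
          exact Fin.lt_def.2 (by omega)
      have h3 : (⟨m, h⟩ : Fin k) = j := Fin.ext h1.symm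
      constructor <;> simp [h2, h3, δ_self]

theorem good_ruler (k : ℕ) : Good (ruler k k le_rfl) := by
  intro j
  rw [(run_ruler k k le_rfl j j.2).1]
  simp

/-! ## The shift -/

/-- The allowed pairs of consecutive symbols. -/
def allowed {k : ℕ} : Sym k → Sym k → Prop
  | .pre, .pre => True
  | .pre, .lm => True
  | .lm, .letter _ => True
  | .letter _, .letter _ => True
  | .letter _, .rm => True
  | .rm, .post => True
  | .post, .post => True
  | _, _ => False

/-- The word `lm u rm`. -/
def framed {k : ℕ} (u : List (Fin k)) : List (Sym k) := .lm :: (u.map .letter ++ [.rm])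

/-- The forbidden words. -/
def F (k : ℕ) : Set (List (Sym k)) :=
  {w | ∃ a b, w = [a, b] ∧ ¬ allowed a b} ∪ {w | ∃ u, Good u ∧ w = framed u}

/-- The shift of finite type. -/
def X (k : ℕ) : Set (ℤ → Sym k) := avoid (F k)

theorem mem_X {k : ℕ} {x : ℤ → Sym k} :
    x ∈ X k ↔ (∀ i, allowed (x i) (x (i + 1))) ∧
      ∀ (i : ℤ) (u : List (Fin k)), x i = .lm →
        (∀ (t : ℕ) (h : t < u.length), x (i + 1 + t) = .letter u[t]) →
        x (i + 1 + u.length) = .rm → ¬ Good u := by
  constructor
  · intro hx
    refine ⟨fun i => ?_, fun i u h1 h2 h3 hu => ?_⟩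
    · by_contra h
      refine hx [x i, x (i + 1)] (Or.inl ⟨_, _, rfl, h⟩) ⟨i, fun j hj => ?_⟩
      rcases j with _ | _ | j
      · simp
      · simp
      · simp at hj
    · refine hx (framed u) (Or.inr ⟨u, hu, rfl⟩) ⟨i, fun j hj => ?_⟩
      rcases j with _ | j
      · simpa [framed] using h1
      · simp only [framed, List.length_cons, List.length_append, List.length_map,
          List.length_nil] at hj
        have e : i + ((j + 1 : ℕ) : ℤ) = i + 1 + j := by push_cast; ring
        rw [e]
        simp only [framed, List.getElem_cons_succ]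
        by_cases hju : j < u.length
        · rw [List.getElem_append_left (by simpa using hju)]
          simpa using h2 j hju
        · have e2 : j = u.length := by omega
          subst e2
          rw [List.getElem_append_right (by simp)]
          simpa using h3
  · rintro ⟨h1, h2⟩ w (⟨a, b, rfl, hab⟩ | ⟨u, hu, rfl⟩) ⟨i, hi⟩
    · have e0 := hi 0 (by simp)
      have e1 := hi 1 (by simp)
      simp at e0 e1
      exact hab (e0 ▸ e1 ▸ h1 i)
    · refine h2 i u ?_ ?_ ?_ hu
      · simpa [framed] using hi 0 (by simp [framed])
      · intro t ht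
        have := hi (t + 1) (by simp [framed]; omega)
        have e : i + ((t + 1 : ℕ) : ℤ) = i + 1 + t := by push_cast; ring
        rw [e] at this
        simp only [framed, List.getElem_cons_succ] at this
        rw [List.getElem_append_left (by simpa using ht)] at this
        simpa using this
      · have := hi (u.length + 1) (by simp [framed])
        have e : i + ((u.length + 1 : ℕ) : ℤ) = i + 1 + u.length := by push_cast; ring
        rw [e] at this
        simp only [framed, List.getElem_cons_succ] at this
        rw [List.getElem_append_right (by simp)] at this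
        simpa using this

theorem F_length {k : ℕ} (hk : 1 ≤ k) : ∀ w ∈ F k, w.length ≤ 2 ^ k + 1 := by
  have h2 : 2 ^ 1 ≤ 2 ^ k := Nat.pow_le_pow_right (by norm_num) hk
  rintro w (⟨a, b, rfl, -⟩ | ⟨u, hu, rfl⟩)
  · simp only [List.length_cons, List.length_nil]
    omega
  · have := good_length hu
    simp only [framed, List.length_cons, List.length_append, List.length_map, List.length_nil]
    omega

theorem isStep_X {k : ℕ} (hk : 1 ≤ k) : IsStep (2 ^ k) (X k) := isStep_avoid (F_length hk)

/-! ## Special points -/

/-- The symbol at position `n` after the marker `lm` in a point that continues with the word `w`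
and then `rm` and `post` symbols. -/
def tail {k : ℕ} (w : List (Fin k)) (n : ℕ) : Sym k :=
  if h : n < w.length then .letter w[n] else if n = w.length then .rm else .post

/-- The point `⋯ pre pre lm w rm post post ⋯`, with `lm` at position `0`. -/
def pt {k : ℕ} (w : List (Fin k)) (i : ℤ) : Sym k :=
  if i < 0 then .pre else if i = 0 then .lm else tail w (i - 1).toNat

theorem pt_tail {k : ℕ} (w : List (Fin k)) (n : ℕ) : pt w (1 + n) = tail w n := by
  unfold pt
  rw [if_neg (by omega), if_neg (by omega)]
  congr 1
  omega

theorem allowed_tail {k : ℕ} (w : List (Fin k)) (n : ℕ) : allowed (tail w n) (tail w (n + 1)) := by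
  unfold tail
  by_cases h1 : n + 1 < w.length
  · rw [dif_pos (by omega), dif_pos h1]; trivial
  · rw [dif_neg h1]
    by_cases h2 : n < w.length
    · rw [dif_pos h2, if_pos (by omega)]; trivial
    · rw [dif_neg h2]
      split_ifs <;> first | trivial | omega

/-- A point without `rm` that agrees with `pt w` up to the end of `w`. -/
def ptL {k : ℕ} (a : Fin k) (w : List (Fin k)) (i : ℤ) : Sym k :=
  if i < 0 then .pre else if i = 0 then .lm else .letter (w.getD (i - 1).toNat a)

/-- A point without `lm` that agrees with `pt w` from the beginning of `w`. -/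
def ptR {k : ℕ} (a : Fin k) (w : List (Fin k)) (i : ℤ) : Sym k :=
  if i < 1 then .letter a else tail w (i - 1).toNat

theorem ptL_mem {k : ℕ} (a : Fin k) (w : List (Fin k)) : ptL a w ∈ X k := by
  rw [mem_X]
  refine ⟨fun i => ?_, fun i u _ _ h => ?_⟩
  · unfold ptL
    split_ifs <;> first | trivial | omega
  · unfold ptL at h
    split_ifs at h

theorem ptR_mem {k : ℕ} (a : Fin k) (w : List (Fin k)) : ptR a w ∈ X k := by
  rw [mem_X]
  refine ⟨fun i => ?_, fun i u h _ _ => ?_⟩
  · unfold ptR
    by_cases h1 : i + 1 < 1
    · rw [if_pos h1, if_pos (by omega)]; trivial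
    · rw [if_neg h1]
      by_cases h2 : i < 1
      · rw [if_pos h2]
        unfold tail
        split_ifs <;> first | trivial | omega
      · rw [if_neg h2]
        have e : (i + 1 - 1).toNat = (i - 1).toNat + 1 := by omega
        rw [e]
        exact allowed_tail _ _
  · unfold ptR tail at h
    split_ifs at h

theorem pt_adj {k : ℕ} {w : List (Fin k)} (hw : w ≠ []) (i : ℤ) :
    allowed (pt w i) (pt w (i + 1)) := by
  have hl : 0 < w.length := List.length_pos_of_ne_nil hw
  unfold pt
  by_cases h1 : i < 0
  · rw [if_pos h1]
    split_ifs <;> first | trivial | omega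
  · rw [if_neg h1, if_neg (show ¬ i + 1 < 0 by omega), if_neg (show ¬ i + 1 = 0 by omega)]
    by_cases h2 : i = 0
    · subst h2
      unfold tail
      rw [if_pos rfl, dif_pos (by simpa using hl)]
      trivial
    · rw [if_neg h2]
      have e : (i + 1 - 1).toNat = (i - 1).toNat + 1 := by omega
      rw [e]
      exact allowed_tail _ _

theorem tail_eq_rm {k : ℕ} {w : List (Fin k)} {n : ℕ} (h : tail w n = .rm) : n = w.length := by
  unfold tail at h
  split_ifs at h
  assumption

theorem pt_mem {k : ℕ} {w : List (Fin k)} (hw : w ≠ []) (hg : ¬ Good w) : pt w ∈ X k := by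
  rw [mem_X]
  refine ⟨pt_adj hw, fun i u h1 h2 h3 => ?_⟩
  have hi : i = 0 := by
    unfold pt tail at h1
    split_ifs at h1
    assumption
  subst hi
  have e : ∀ n : ℕ, pt w (0 + 1 + n) = tail w n := fun n => by rw [← pt_tail]; norm_num
  rw [e] at h3
  have hl := tail_eq_rm h3
  suffices u = w by rwa [this]
  refine List.ext_getElem hl fun n hn hn' => ?_
  have := h2 n hn
  rw [e] at this
  unfold tail at this
  rw [dif_pos hn'] at this
  injection this with this
  exact this.symm

theorem pt_not_mem {k : ℕ} {w : List (Fin k)} (hg : Good w) : pt w ∉ X k := by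
  intro h
  rw [mem_X] at h
  have e : ∀ n : ℕ, pt w (0 + 1 + n) = tail w n := fun n => by rw [← pt_tail]; norm_num
  refine h.2 0 w (by simp [pt]) (fun t ht => ?_) ?_ hg
  · rw [e]; unfold tail; rw [dif_pos ht]
  · rw [e]; unfold tail; rw [dif_neg (by omega), if_pos rfl]

/-- The shift `X k` is not `M`-step for `M < 2 ^ k`. -/
theorem le_of_isStep {k : ℕ} (hk : 1 ≤ k) {M : ℕ} (h : IsStep M (X k)) : 2 ^ k ≤ M := by
  by_contra hM
  push Not at hM
  obtain ⟨F', hF, hX⟩ := h
  have hρ := ruler_length k k le_rfl
  have hg := good_ruler k
  set ρ := ruler k k le_rfl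
  let a : Fin k := ⟨0, hk⟩
  have hp : pt ρ ∉ avoid F' := by rw [← hX]; exact pt_not_mem hg
  simp only [avoid, Set.mem_ofPred_eq, not_forall, not_not] at hp
  obtain ⟨u, hu, i, hi⟩ := hp
  have hlen := hF u hu
  by_cases h1 : i < 1
  · -- the occurrence ends before `rm`
    have hL : ptL a ρ ∈ avoid F' := hX ▸ ptL_mem a ρ
    refine hL u hu ⟨i, fun j hj => ?_⟩
    rw [← hi j hj]
    unfold ptL pt
    by_cases h2 : i + j < 0
    · rw [if_pos h2, if_pos h2]
    · rw [if_neg h2, if_neg h2]
      by_cases h3 : i + j = 0
      · rw [if_pos h3, if_pos h3]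
      · rw [if_neg h3, if_neg h3]
        have h4 : (i + j - 1).toNat < ρ.length := by omega
        unfold tail
        rw [dif_pos h4, List.getD_eq_getElem _ _ h4]
  · have hR : ptR a ρ ∈ avoid F' := hX ▸ ptR_mem a ρ
    refine hR u hu ⟨i, fun j hj => ?_⟩
    rw [← hi j hj]
    unfold ptR pt
    rw [if_neg (by omega), if_neg (by omega), if_neg (by omega)]

theorem minStep_X {k : ℕ} (hk : 1 ≤ k) : minStep (X k) = 2 ^ k :=
  le_antisymm (Nat.sInf_le (isStep_X hk))
    (le_csInf ⟨_, isStep_X hk⟩ fun _ hM => le_of_isStep hk hM)

/-! ## Every presentation has at least `k` vertices -/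

theorem le_card {k : ℕ} (G : Presentation (Sym k)) (hG : G.shift = X k) : k ≤ Nat.card G.V := by
  have := G.finV
  have hρ := ruler_length k k le_rfl
  have hg := good_ruler k
  set ρ := ruler k k le_rfl
  let S : Fin (2 ^ k) → Set G.V := fun t => {v | ∃ e : ℤ → G.E,
    (∀ i, G.tgt (e i) = G.src (e (i + 1))) ∧ G.lab (e 0) = .lm ∧
    (∀ (n : ℕ) (h : n < ρ.length), n < t → G.lab (e (1 + n)) = .letter ρ[n]) ∧
    G.src (e (1 + (t : ℕ))) = v}
  have hinj : Function.Injective S := by
    have key : ∀ t t' : Fin (2 ^ k), (t : ℕ) < t' → S t ≠ S t' := by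
      intro t t' htt hS
      have ht' := t'.2
      let z := pt (ρ.take t' ++ ρ.drop t)
      have hzl : (ρ.take t' ++ ρ.drop t).length = t' + (ρ.length - t) := by
        rw [List.length_append, List.length_take, List.length_drop, min_eq_left (by omega)]
      have hz : z ∈ G.shift := by
        rw [hG]
        refine pt_mem ?_ fun hgood => ?_
        · intro h
          rw [h] at hzl
          simp at hzl
          omega
        · have := good_length hgood
          omega
      obtain ⟨e', hw', hl'⟩ := hz
      have hv : G.src (e' (1 + (t' : ℕ))) ∈ S t' := by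
        refine ⟨e', hw', ?_, fun n hn hnt => ?_, rfl⟩
        · rw [← hl']; simp [z, pt]
        · rw [← hl']
          change pt _ _ = _
          rw [pt_tail]
          unfold tail
          rw [dif_pos (by omega)]
          congr 1
          rw [List.getElem_append_left (by simp; omega)]
          simp
      rw [← hS] at hv
      obtain ⟨e, hw, h0, h1, h2⟩ := hv
      let x : ℤ → Sym k := fun i => if i < 1 + (t : ℕ) then G.lab (e i) else
        G.lab (e' (i + ((t' : ℕ) - (t : ℕ) : ℤ)))
      have hx : x ∈ X k := by
        rw [← hG]
        refine ⟨fun i => if i < 1 + (t : ℕ) then e i else e' (i + ((t' : ℕ) - (t : ℕ) : ℤ)),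
          fun i => ?_, fun i => ?_⟩
        · dsimp only
          by_cases h3 : i + 1 < 1 + (t : ℕ)
          · rw [if_pos h3, if_pos (by omega)]
            exact hw i
          · rw [if_neg h3]
            by_cases h4 : i < 1 + (t : ℕ)
            · rw [if_pos h4, hw i]
              have e1 : i + 1 = 1 + (t : ℕ) := by omega
              rw [e1, h2]
              congr 2
              ring
            · rw [if_neg h4, hw']
              congr 2
              ring
        · dsimp only [x]
          split_ifs <;> rfl
      rw [mem_X] at hx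
      refine hx.2 0 ρ ?_ (fun n hn => ?_) ?_ hg
      · simp only [x]
        rw [if_pos (by omega), h0]
      · simp only [x]
        by_cases h3 : n < t
        · rw [if_pos (by omega)]
          have := h1 n hn h3
          rw [← this]
          norm_num
        · rw [if_neg (by omega), ← hl']
          have e1 : (0 + 1 + (n : ℤ) + ((t' : ℕ) - (t : ℕ) : ℤ)) = 1 + ((n + t' - t : ℕ) : ℤ) := by
            omega
          rw [e1]
          change pt _ _ = _
          rw [pt_tail]
          unfold tail
          rw [dif_pos (by omega)]
          congr 1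
          rw [List.getElem_append_right (by simp; omega), List.getElem_drop]
          congr 1
          simp only [List.length_take]
          omega
      · simp only [x]
        rw [if_neg (by omega), ← hl']
        have e1 : (0 + 1 + (ρ.length : ℤ) + ((t' : ℕ) - (t : ℕ) : ℤ)) =
            1 + ((ρ.length + t' - t : ℕ) : ℤ) := by omega
        rw [e1]
        change pt _ _ = _
        rw [pt_tail]
        unfold tail
        rw [dif_neg (by omega), if_pos (by omega)]
    intro t t' h
    rcases lt_trichotomy (t : ℕ) t' with h1 | h1 | h1
    · exact absurd h (key _ _ h1)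
    · exact Fin.ext h1
    · exact absurd h.symm (key _ _ h1)
  have : Finite (Set G.V) := inferInstance
  have h1 := Nat.card_le_card_of_injective S hinj
  have : Fintype G.V := Fintype.ofFinite _
  rw [Nat.card_eq_fintype_card, Fintype.card_fin, Nat.card_eq_fintype_card, Fintype.card_set] at h1
  rw [Nat.card_eq_fintype_card]
  exact (Nat.pow_le_pow_iff_right (by norm_num)).1 h1

/-! ## A deterministic presentation with `5 k + 1` vertices -/

instance : Fintype St := ⟨{.none, .eq, .gt, .err}, by intro x; cases x <;> simp⟩

/-- The vertices: `none` is used after `rm`, `some (j, none)` before `lm`, and `some (j, some s)` in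
between, when the error automaton of the bit `j` is in the state `s`. -/
abbrev Vtx (k : ℕ) : Type := Option (Fin k × Option St)

/-- The partial transition function. -/
def step {k : ℕ} : Vtx k → Sym k → Option (Vtx k)
  | some (j, none), .pre => some (some (j, none))
  | some (j, none), .lm => some (some (j, some .none))
  | some (j, some s), .letter a => some (some (j, some (δ j s a)))
  | some (_, some .err), .rm => some none
  | none, .post => some none
  | _, _ => none

/-- The presentation. -/
def G (k : ℕ) : Presentation (Sym k) where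
  V := Vtx k
  E := {t : Vtx k × Sym k × Vtx k // step t.1 t.2.1 = some t.2.2}
  finV := inferInstance
  finE := inferInstance
  src t := t.1.1
  tgt t := t.1.2.2
  lab t := t.1.2.1

theorem G_det (k : ℕ) : (G k).Deterministic := by
  rintro ⟨⟨a, b, c⟩, h⟩ ⟨⟨a', b', c'⟩, h'⟩ h1 h2
  simp only [G] at h1 h2
  subst h1 h2
  simp only at h h'
  rw [h] at h'
  simp at h'
  subst h'
  rfl

theorem card_Vtx (k : ℕ) : Nat.card (Vtx k) = 5 * k + 1 := by
  rw [Nat.card_eq_fintype_card, Fintype.card_option, Fintype.card_prod, Fintype.card_fin,
    Fintype.card_option]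
  have : Fintype.card St = 4 := rfl
  rw [this]
  ring

theorem mem_shift {k : ℕ} {x : ℤ → Sym k} :
    x ∈ (G k).shift ↔ ∃ v : ℤ → Vtx k, ∀ i, step (v i) (x i) = some (v (i + 1)) := by
  constructor
  · rintro ⟨e, h1, h2⟩
    refine ⟨fun i => (G k).src (e i), fun i => ?_⟩
    have h3 := (e i).2
    have h4 : (e i).1.2.2 = (G k).src (e (i + 1)) := h1 i
    have h5 : x i = (e i).1.2.1 := h2 i
    rw [h4, ← h5] at h3
    exact h3
  · rintro ⟨v, hv⟩
    exact ⟨fun i => ⟨(v i, x i, v (i + 1)), hv i⟩, fun i => rfl, fun i => rfl⟩

theorem step_pre {k : ℕ} {v v' : Vtx k} (h : step v .pre = some v') :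
    ∃ j, v = some (j, none) ∧ v' = some (j, none) := by
  rcases v with _ | ⟨j, _ | s⟩
  · simp [step] at h
  · simp [step] at h; exact ⟨j, rfl, h.symm⟩
  · cases s <;> simp [step] at h

theorem step_lm {k : ℕ} {v v' : Vtx k} (h : step v .lm = some v') :
    ∃ j, v = some (j, none) ∧ v' = some (j, some .none) := by
  rcases v with _ | ⟨j, _ | s⟩
  · simp [step] at h
  · simp [step] at h; exact ⟨j, rfl, h.symm⟩
  · cases s <;> simp [step] at h

theorem step_letter {k : ℕ} {v v' : Vtx k} {a : Fin k} (h : step v (.letter a) = some v') :
    ∃ j s, v = some (j, some s) ∧ v' = some (j, some (δ j s a)) := by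
  rcases v with _ | ⟨j, _ | s⟩
  · simp [step] at h
  · simp [step] at h
  · simp [step] at h; exact ⟨j, s, rfl, h.symm⟩

theorem step_rm {k : ℕ} {v v' : Vtx k} (h : step v .rm = some v') :
    ∃ j, v = some (j, some .err) ∧ v' = none := by
  rcases v with _ | ⟨j, _ | s⟩
  · simp [step] at h
  · simp [step] at h
  · cases s <;> simp [step] at h
    exact ⟨j, rfl, h.symm⟩

theorem step_post {k : ℕ} {v v' : Vtx k} (h : step v .post = some v') : v = none ∧ v' = none := by
  rcases v with _ | ⟨j, _ | s⟩
  · simp [step] at h; exact ⟨rfl, h.symm⟩
  · simp [step] at h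
  · cases s <;> simp [step] at h

theorem step_adj {k : ℕ} {v v' v'' : Vtx k} {a b : Sym k} (h : step v a = some v')
    (h' : step v' b = some v'') : allowed a b := by
  rcases a with _ | _ | a | _ | _
  · obtain ⟨j, -, rfl⟩ := step_pre h
    rcases b with _ | _ | b | _ | _
    · trivial
    · trivial
    · obtain ⟨_, _, h1, _⟩ := step_letter h'; simp at h1
    · obtain ⟨_, h1, _⟩ := step_rm h'; simp at h1
    · obtain ⟨h1, _⟩ := step_post h'; simp at h1
  · obtain ⟨j, -, rfl⟩ := step_lm h
    rcases b with _ | _ | b | _ | _
    · obtain ⟨_, h1, _⟩ := step_pre h'; simp at h1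
    · obtain ⟨_, h1, _⟩ := step_lm h'; simp at h1
    · trivial
    · obtain ⟨_, h1, _⟩ := step_rm h'; simp at h1
    · obtain ⟨h1, _⟩ := step_post h'; simp at h1
  · obtain ⟨j, s, -, rfl⟩ := step_letter h
    rcases b with _ | _ | b | _ | _
    · obtain ⟨_, h1, _⟩ := step_pre h'; simp at h1
    · obtain ⟨_, h1, _⟩ := step_lm h'; simp at h1
    · trivial
    · trivial
    · obtain ⟨h1, _⟩ := step_post h'; simp at h1
  · obtain ⟨j, -, rfl⟩ := step_rm h
    rcases b with _ | _ | b | _ | _
    · obtain ⟨_, h1, _⟩ := step_pre h'; simp at h1
    · obtain ⟨_, h1, _⟩ := step_lm h'; simp at h1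
    · obtain ⟨_, _, h1, _⟩ := step_letter h'; simp at h1
    · obtain ⟨_, h1, _⟩ := step_rm h'; simp at h1
    · trivial
  · obtain ⟨-, rfl⟩ := step_post h
    rcases b with _ | _ | b | _ | _
    · obtain ⟨_, h1, _⟩ := step_pre h'; simp at h1
    · obtain ⟨_, h1, _⟩ := step_lm h'; simp at h1
    · obtain ⟨_, _, h1, _⟩ := step_letter h'; simp at h1
    · obtain ⟨_, h1, _⟩ := step_rm h'; simp at h1
    · trivial

theorem shift_subset (k : ℕ) : (G k).shift ⊆ X k := by
  intro x hx
  rw [mem_shift] at hx
  obtain ⟨v, hv⟩ := hx
  rw [mem_X]
  refine ⟨fun i => step_adj (hv i) (hv (i + 1)), fun i u h1 h2 h3 hu => ?_⟩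
  have h4 := hv i
  rw [h1] at h4
  obtain ⟨j, -, hj⟩ := step_lm h4
  have key : ∀ t : ℕ, t ≤ u.length → v (i + 1 + t) = some (j, some (run j .none (u.take t))) := by
    intro t
    induction t with
    | zero => intro _; simpa [run] using hj
    | succ t ih =>
      intro ht
      have h5 := hv (i + 1 + t)
      rw [h2 t (by omega)] at h5
      obtain ⟨j', s, h6, h7⟩ := step_letter h5
      rw [ih (by omega)] at h6
      simp only [Option.some.injEq, Prod.mk.injEq] at h6
      obtain ⟨rfl, rfl⟩ := h6
      have e : i + 1 + ((t + 1 : ℕ) : ℤ) = i + 1 + t + 1 := by push_cast; ring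
      rw [e, h7, List.take_succ_eq_append_getElem (by omega), run_append]
      rfl
  have h5 := hv (i + 1 + u.length)
  rw [h3] at h5
  obtain ⟨j', h6, -⟩ := step_rm h5
  rw [key _ le_rfl, List.take_length] at h6
  simp only [Option.some.injEq, Prod.mk.injEq] at h6
  exact hu j h6.2

theorem subset_shift {k : ℕ} (hk : 1 ≤ k) : X k ⊆ (G k).shift := by
  intro x hx
  rw [mem_X] at hx
  obtain ⟨hadj, hbad⟩ := hx
  rw [mem_shift]
  let j0 : Fin k := ⟨0, hk⟩
  by_cases hlm : ∃ i, x i = .lm
  · obtain ⟨i0, hi0⟩ := hlm
    -- to the left of the marker there are only symbols `pre`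
    have hpre : ∀ n : ℕ, x (i0 - 1 - n) = .pre := by
      intro n
      induction n with
      | zero =>
        have h := hadj (i0 - 1)
        rw [show i0 - 1 + 1 = i0 by ring, hi0] at h
        simp only [Nat.cast_zero, sub_zero]
        generalize x (i0 - 1) = s at h ⊢
        cases s <;> first | rfl | exact h.elim
      | succ n ih =>
        have h := hadj (i0 - 1 - ((n + 1 : ℕ) : ℤ))
        rw [show i0 - 1 - ((n + 1 : ℕ) : ℤ) + 1 = i0 - 1 - n by push_cast; ring, ih] at h
        generalize x (i0 - 1 - ((n + 1 : ℕ) : ℤ)) = s at h ⊢
        cases s <;> first | rfl | exact h.elim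
    let y : ℕ → Sym k := fun n => x (i0 + 1 + n)
    have hy0 : allowed (.lm) (y 0) := by
      have h := hadj i0
      rw [hi0] at h
      simpa [y] using h
    have hy : ∀ n, allowed (y n) (y (n + 1)) := by
      intro n
      have h := hadj (i0 + 1 + n)
      simp only [y]
      rw [show i0 + 1 + ((n + 1 : ℕ) : ℤ) = i0 + 1 + n + 1 by push_cast; ring]
      exact h
    let l : ℕ → Fin k := fun n => match y n with
      | .letter a => a
      | _ => j0
    obtain ⟨j, hj⟩ : ∃ j : Fin k, ∀ n, y n = .rm → (∀ m < n, y m = .letter (l m)) →
        run j .none ((List.range n).map l) = .err := by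
      by_cases h : ∃ n, y n = .rm ∧ ∀ m < n, y m = .letter (l m)
      · obtain ⟨n, hn, hl⟩ := h
        have h1 := hbad i0 ((List.range n).map l) hi0 (fun t ht => by
          simp only [List.length_map, List.length_range] at ht
          rw [List.getElem_map, List.getElem_range]
          exact hl t ht) (by simpa using hn)
        unfold Good at h1
        push Not at h1
        obtain ⟨j, hj⟩ := h1
        refine ⟨j, fun n' hn' hl' => ?_⟩
        have h2 : n' = n := by
          rcases lt_trichotomy n' n with h3 | h3 | h3
          · have := hl n' h3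
            rw [hn'] at this
            cases this
          · exact h3
          · have := hl' n h3
            rw [hn] at this
            cases this
        rw [h2]
        exact hj
      · push Not at h
        refine ⟨j0, fun n hn hl => ?_⟩
        obtain ⟨m, hm, hm'⟩ := h n hn
        exact absurd (hl m hm) hm'
    let vv : ℕ → Vtx k := fun n => Nat.rec (some (j, some .none))
      (fun n v => (step v (y n)).getD none) n
    have hvv : ∀ n, vv (n + 1) = (step (vv n) (y n)).getD none := fun n => rfl
    have key : ∀ n, ((∀ m < n, y m = .letter (l m)) ∧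
        vv n = some (j, some (run j .none ((List.range n).map l)))) ∨
        (vv n = none ∧ y n = .post) := by
      intro n
      induction n with
      | zero => exact Or.inl ⟨fun m hm => absurd hm (by omega), rfl⟩
      | succ n ih =>
        rcases ih with ⟨h1, h2⟩ | ⟨h1, h2⟩
        · have h3 : (∃ a, y n = .letter a) ∨ y n = .rm := by
            rcases n with _ | n
            · left
              generalize y 0 = s at hy0
              cases s <;> first | exact ⟨_, rfl⟩ | exact hy0.elim
            · have h4 := hy n
              rw [h1 n (by omega)] at h4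
              generalize y (n + 1) = s at h4
              cases s <;> first | exact Or.inl ⟨_, rfl⟩ | exact Or.inr rfl | exact h4.elim
          rcases h3 with ⟨a, ha⟩ | h3
          · left
            have hla : l n = a := by simp only [l, ha]
            refine ⟨fun m hm => ?_, ?_⟩
            · rcases Nat.lt_succ_iff_lt_or_eq.1 hm with h4 | rfl
              · exact h1 m h4
              · rw [ha, hla]
            · rw [hvv, h2, ha, List.range_succ, List.map_append, run_append]
              simp [step, run, hla]
          · right
            have h4 := hj n h3 h1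
            rw [h4] at h2
            refine ⟨?_, ?_⟩
            · rw [hvv, h2, h3]; rfl
            · have h5 := hy n
              rw [h3] at h5
              generalize y (n + 1) = s at h5
              cases s <;> first | rfl | exact h5.elim
        · right
          refine ⟨?_, ?_⟩
          · rw [hvv, h1, h2]; rfl
          · have h5 := hy n
            rw [h2] at h5
            generalize y (n + 1) = s at h5
            cases s <;> first | rfl | exact h5.elim
    have hstep : ∀ n, step (vv n) (y n) = some (vv (n + 1)) := by
      intro n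
      rcases key n with ⟨h1, h2⟩ | ⟨h1, h2⟩
      · have h3 : (∃ a, y n = .letter a) ∨ y n = .rm := by
          rcases n with _ | n
          · left
            generalize y 0 = s at hy0
            cases s <;> first | exact ⟨_, rfl⟩ | exact hy0.elim
          · have h4 := hy n
            rw [h1 n (by omega)] at h4
            generalize y (n + 1) = s at h4
            cases s <;> first | exact Or.inl ⟨_, rfl⟩ | exact Or.inr rfl | exact h4.elim
        rcases h3 with ⟨a, ha⟩ | h3
        · rw [hvv, h2, ha]; rfl
        · rw [hvv, h2, h3, hj n h3 h1]; rfl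
      · rw [hvv, h1, h2]; rfl
    refine ⟨fun i => if i ≤ i0 then some (j, none) else vv (i - i0 - 1).toNat, fun i => ?_⟩
    dsimp only
    rcases lt_trichotomy i i0 with h | h | h
    · rw [if_pos h.le, if_pos (by omega)]
      have := hpre (i0 - 1 - i).toNat
      rw [show i0 - 1 - (((i0 - 1 - i).toNat : ℕ) : ℤ) = i by omega] at this
      rw [this]
      rfl
    · subst h
      rw [if_pos le_rfl, if_neg (by omega), hi0, show (i + 1 - i - 1).toNat = 0 by omega]
      rfl
    · rw [if_neg (by omega), if_neg (by omega)]
      have := hstep (i - i0 - 1).toNat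
      simp only [y] at this
      rw [show i0 + 1 + (((i - i0 - 1).toNat : ℕ) : ℤ) = i by omega] at this
      rw [this, show (i + 1 - i0 - 1).toNat = (i - i0 - 1).toNat + 1 by omega]
  · push Not at hlm
    let φ : Sym k → Vtx k := fun s => match s with
      | .pre => some (j0, none)
      | .post => none
      | _ => some (j0, some .err)
    refine ⟨fun i => φ (x i), fun i => ?_⟩
    have h := hadj i
    have h1 := hlm i
    have h2 := hlm (i + 1)
    dsimp only
    generalize x i = s at h h1 ⊢
    generalize x (i + 1) = s' at h h2 ⊢
    cases s <;> cases s' <;> first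
      | exact h.elim
      | exact (h1 rfl).elim
      | exact (h2 rfl).elim
      | rfl
      | (simp only [φ, step, δ_err])

theorem shift_eq {k : ℕ} (hk : 1 ≤ k) : (G k).shift = X k :=
  Set.Subset.antisymm (shift_subset k) (subset_shift hk)

theorem detSizes_nonempty {k : ℕ} (hk : 1 ≤ k) : 5 * k + 1 ∈ detSizes (X k) :=
  ⟨G k, G_det k, shift_eq hk, card_Vtx k⟩

theorem sd_le {k : ℕ} (hk : 1 ≤ k) : sd (X k) ≤ 5 * k + 1 := Nat.sInf_le (detSizes_nonempty hk)

theorem le_sd {k : ℕ} (hk : 1 ≤ k) : k ≤ sd (X k) := by
  refine le_csInf ⟨_, detSizes_nonempty hk⟩ ?_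
  rintro n ⟨H, -, hH, rfl⟩
  exact le_card H hH

/-- The exponential upper bound for the minimum step in terms of the number of vertices of a
deterministic presentation is tight. -/
theorem result :
    ∃ c : ℝ, 0 < c ∧ ∃ (A : ℕ → Type) (X : (k : ℕ) → Set (ℤ → A k)),
      (∀ k, Finite (A k)) ∧ (∀ k, IsSFT (X k)) ∧ (∀ k, (detSizes (X k)).Nonempty) ∧
      Filter.Tendsto (fun k => sd (X k)) Filter.atTop Filter.atTop ∧
      ∀ k, (2 : ℝ) ^ (c * sd (X k)) ≤ minStep (X k) := by
  refine ⟨1 / 6, by norm_num, fun k => Sym (k + 1), fun k => X (k + 1), fun k => inferInstance,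
    fun k => ⟨_, isStep_X (by omega)⟩, fun k => ⟨_, detSizes_nonempty (by omega)⟩, ?_, fun k => ?_⟩
  · refine Filter.tendsto_atTop_mono (fun k => ?_) Filter.tendsto_id
    exact (Nat.le_succ k).trans (le_sd (by omega))
  · rw [minStep_X (by omega)]
    have h1 := sd_le (k := k + 1) (by omega)
    have h2 : ((sd (X (k + 1)) : ℕ) : ℝ) ≤ 5 * ((k : ℝ) + 1) + 1 := by exact_mod_cast h1
    have h3 : (1 / 6 : ℝ) * sd (X (k + 1)) ≤ ((k + 1 : ℕ) : ℝ) := by
      push_cast
      have : (0 : ℝ) ≤ k := Nat.cast_nonneg k
      linarith
    calc (2 : ℝ) ^ ((1 / 6 : ℝ) * sd (X (k + 1))) ≤ (2 : ℝ) ^ (((k + 1 : ℕ) : ℝ)) :=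
          Real.rpow_le_rpow_of_exponent_le (by norm_num) h3
      _ = ((2 ^ (k + 1) : ℕ) : ℝ) := by rw [Real.rpow_natCast]; push_cast; rfl

end Pool.Agent.Results.MP_bb9d96_lc.ExpStep
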